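import Pool.Agent.H7.GU.Stmts

/-!
# Board gu8, row MLB0: the weights inside the parts (copy of H10/GT/MLB.lean)
-/

set_option autoImplicit false

open Finset

namespace Pool.GU7

open Pool.Agent.H23.KT Pool.Agent.H46.KW Pool.KQ Pool.GT7

variable {V : Type}

open Classical in
/-- `1` if `f i`, `f k` are not adjacent. -/
noncomputable def MLB08_bd (G : SimpleGraph V) {b : ℕ} (f : Fin b → V) (i k : Fin b) : ℝ :=
  if G.Adj (f i) (f k) then 0 else 1

/-- The number of `k ≠ i` with `f i`, `f k` not adjacent. -/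
noncomputable def MLB08_dg (G : SimpleGraph V) {b : ℕ} (f : Fin b → V) (i : Fin b) : ℝ :=
  ∑ k ∈ univ.erase i, MLB08_bd G f i k

lemma MLB08_bd_nonneg (G : SimpleGraph V) {b : ℕ} (f : Fin b → V) (i k : Fin b) :
    0 ≤ MLB08_bd G f i k := by
  unfold MLB08_bd; split_ifs <;> norm_num

lemma MLB08_bd_sq (G : SimpleGraph V) {b : ℕ} (f : Fin b → V) (i k : Fin b) :
    MLB08_bd G f i k * MLB08_bd G f i k = MLB08_bd G f i k := by
  unfold MLB08_bd; split_ifs <;> norm_num

/-- `d (d - 1)`. -/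
lemma MLB08_dg_sq (G : SimpleGraph V) {b : ℕ} (f : Fin b → V) (i : Fin b) :
    MLB08_dg G f i * (MLB08_dg G f i - 1) =
      ∑ k ∈ univ.erase i, ∑ l ∈ (univ.erase i).erase k, MLB08_bd G f i k * MLB08_bd G f i l := by
  have h : MLB08_dg G f i * MLB08_dg G f i =
      ∑ k ∈ univ.erase i, (MLB08_bd G f i k +
        ∑ l ∈ (univ.erase i).erase k, MLB08_bd G f i k * MLB08_bd G f i l) := by
    unfold MLB08_dg
    rw [Finset.sum_mul_sum]
    refine Finset.sum_congr rfl fun k hk => ?_
    rw [← Finset.add_sum_erase _ _ hk, MLB08_bd_sq]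
  rw [mul_sub, mul_one, h, Finset.sum_add_distrib]
  unfold MLB08_dg
  ring

lemma MLB08_sum_update {b : ℕ} (P : Fin b → Finset V) (i : Fin b) (F : (Fin b → V) → ℝ) :
    ∑ f ∈ Fintype.piFinset P, ∑ z ∈ P i, F (Function.update f i z) =
      ((P i).card : ℝ) * ∑ f ∈ Fintype.piFinset P, F f := by
  have h1 : ∑ x ∈ Fintype.piFinset P ×ˢ P i, F (Function.update x.1 i x.2) =
      ∑ x ∈ Fintype.piFinset P ×ˢ P i, F x.1 := by
    refine Finset.sum_nbij' (fun x => (Function.update x.1 i x.2, x.1 i))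
      (fun x => (Function.update x.1 i x.2, x.1 i)) ?_ ?_ ?_ ?_ ?_
    · rintro ⟨f, z⟩ h
      simp only [mem_product, Fintype.mem_piFinset] at h ⊢
      refine ⟨fun k => ?_, h.1 i⟩
      rcases eq_or_ne k i with rfl | hk
      · rw [Function.update_self]; exact h.2
      · rw [Function.update_of_ne hk]; exact h.1 k
    · rintro ⟨f, z⟩ h
      simp only [mem_product, Fintype.mem_piFinset] at h ⊢
      refine ⟨fun k => ?_, h.1 i⟩
      rcases eq_or_ne k i with rfl | hk
      · rw [Function.update_self]; exact h.2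
      · rw [Function.update_of_ne hk]; exact h.1 k
    · rintro ⟨f, z⟩ _
      simp
    · rintro ⟨f, z⟩ _
      simp
    · rintro ⟨f, z⟩ _
      rfl
  rw [Finset.sum_product, Finset.sum_product] at h1
  rw [h1]
  simp only [sum_const, nsmul_eq_mul]
  rw [Finset.mul_sum]

/-- A function of one coordinate. -/
lemma MLB08_coord {b : ℕ} (P : Fin b → Finset V) (i : Fin b) (h : V → ℝ) :
    ((P i).card : ℝ) * ∑ f ∈ Fintype.piFinset P, h (f i) =
      (∑ u ∈ P i, h u) * ∏ l, ((P l).card : ℝ) := by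
  rw [← MLB08_sum_update P i (fun f => h (f i))]
  have h1 : ∀ f ∈ Fintype.piFinset P, ∑ z ∈ P i, h (Function.update f i z i) =
      ∑ z ∈ P i, h z := fun f _ => Finset.sum_congr rfl fun z _ => by
    rw [Function.update_self]
  rw [Finset.sum_congr rfl h1, Finset.sum_const, nsmul_eq_mul, Fintype.card_piFinset]
  push_cast
  ring

/-- The sum over the non-neighbours in `P k`. -/
lemma MLB08_upd (G : SimpleGraph V) {b : ℕ} (P : Fin b → Finset V) (i k : Fin b) (hki : k ≠ i)
    (f : Fin b → V) :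
    ∑ z ∈ P k, MLB08_bd G (Function.update f k z) i k = ((non G (P k) (f i)).card : ℝ) := by
  classical
  rw [non, Finset.card_filter]
  push_cast
  refine Finset.sum_congr rfl fun z _ => ?_
  unfold MLB08_bd
  rw [Function.update_of_ne hki.symm, Function.update_self]
  by_cases h : G.Adj (f i) z <;> simp [h]

/-- The first moment. -/
lemma MLB08_first (G : SimpleGraph V) {b : ℕ} (P : Fin b → Finset V)
    (hne : ∀ l, 0 < ((P l).card : ℝ)) (i k : Fin b) (hki : k ≠ i) :
    ((P i).card : ℝ) * ∑ f ∈ Fintype.piFinset P, MLB08_bd G f i k =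
      (∑ u ∈ P i, ((non G (P k) u).card : ℝ)) * ∏ l ∈ univ.erase k, ((P l).card : ℝ) := by
  have h1 := MLB08_sum_update P k (fun f => MLB08_bd G f i k)
  rw [Finset.sum_congr rfl fun f _ => MLB08_upd G P i k hki f] at h1
  have h2 := MLB08_coord P i (fun u => ((non G (P k) u).card : ℝ))
  rw [h1] at h2
  rw [← Finset.mul_prod_erase univ _ (mem_univ k)] at h2
  have h3 : ((P k).card : ℝ) * (((P i).card : ℝ) * ∑ f ∈ Fintype.piFinset P, MLB08_bd G f i k) =
      ((P k).card : ℝ) * ((∑ u ∈ P i, ((non G (P k) u).card : ℝ)) *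
        ∏ l ∈ univ.erase k, ((P l).card : ℝ)) := by
    linarith
  exact mul_left_cancel₀ (hne k).ne' h3

/-- The second moment. -/
lemma MLB08_second (G : SimpleGraph V) {b : ℕ} (P : Fin b → Finset V) {E : ℝ}
    (hne : ∀ l, 0 < ((P l).card : ℝ))
    (hmis : ∀ i, ∀ u ∈ P i, ∀ k, k ≠ i → ((non G (P k) u).card : ℝ) ≤ E)
    (i k l : Fin b) (hki : k ≠ i) (hli : l ≠ i) (hlk : l ≠ k) :
    ((P i).card : ℝ) * ∑ f ∈ Fintype.piFinset P, MLB08_bd G f i k * MLB08_bd G f i l ≤
      E * ((∑ u ∈ P i, ((non G (P k) u).card : ℝ)) *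
        ∏ m ∈ (univ.erase k).erase l, ((P m).card : ℝ)) := by
  have h1 := MLB08_sum_update P l (fun f => MLB08_bd G f i k * MLB08_bd G f i l)
  have h2 : ∀ f ∈ Fintype.piFinset P,
      ∑ z ∈ P l, MLB08_bd G (Function.update f l z) i k * MLB08_bd G (Function.update f l z) i l ≤
        E * MLB08_bd G f i k := by
    intro f hf
    have h3 : ∑ z ∈ P l, MLB08_bd G (Function.update f l z) i k *
        MLB08_bd G (Function.update f l z) i l =
        MLB08_bd G f i k * ((non G (P l) (f i)).card : ℝ) := by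
      rw [← MLB08_upd G P i l hli f, Finset.mul_sum]
      refine Finset.sum_congr rfl fun z _ => ?_
      congr 1
      unfold MLB08_bd
      rw [Function.update_of_ne hli.symm, Function.update_of_ne hlk.symm]
    rw [h3, mul_comm]
    exact mul_le_mul_of_nonneg_right (hmis i (f i) (Fintype.mem_piFinset.1 hf i) l hli)
      (MLB08_bd_nonneg G f i k)
  have h4 := Finset.sum_le_sum h2
  rw [h1, ← Finset.mul_sum] at h4
  have h5 := mul_le_mul_of_nonneg_left h4 (hne i).le
  have h6 := MLB08_first G P hne i k hki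
  have hmem : l ∈ (univ : Finset (Fin b)).erase k := mem_erase.2 ⟨hlk, mem_univ _⟩
  rw [← Finset.mul_prod_erase (univ.erase k) _ hmem] at h6
  have h7 : ((P l).card : ℝ) * (((P i).card : ℝ) *
      ∑ f ∈ Fintype.piFinset P, MLB08_bd G f i k * MLB08_bd G f i l) ≤
      ((P l).card : ℝ) * (E * ((∑ u ∈ P i, ((non G (P k) u).card : ℝ)) *
        ∏ m ∈ (univ.erase k).erase l, ((P m).card : ℝ))) := by
    calc ((P l).card : ℝ) * (((P i).card : ℝ) *
      ∑ f ∈ Fintype.piFinset P, MLB08_bd G f i k * MLB08_bd G f i l)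
        = ((P i).card : ℝ) * (((P l).card : ℝ) *
      ∑ f ∈ Fintype.piFinset P, MLB08_bd G f i k * MLB08_bd G f i l) := by ring
      _ ≤ ((P i).card : ℝ) * (E * ∑ f ∈ Fintype.piFinset P, MLB08_bd G f i k) := h5
      _ = E * (((P i).card : ℝ) * ∑ f ∈ Fintype.piFinset P, MLB08_bd G f i k) := by ring
      _ = _ := by rw [h6]; ring
  exact le_of_mul_le_mul_left h7 (hne l)

variable [DecidableEq V]

/-- The weight of one vertex. -/
lemma MLB08_gg_le (hG : GCO0Stmt) (G : SimpleGraph V) {p w r : ℕ} (hprm : Pr0 p w r)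
    (P : Fin (p + 3) → Finset V) (hP : Par G P)
    {f : Fin (p + 3) → V} (hf : f ∈ trv G P) (i : Fin (p + 3)) {z : V} (hz : z ∈ P i) :
    gg p r ((nb G (univ.image f) z).card + 1) ≤
      (r : ℝ) / (((p : ℝ) + 3 - r) * ((p : ℝ) + 2)) * MLB08_dg G (Function.update f i z) i +
        1 / 2 * (MLB08_dg G (Function.update f i z) i *
          (MLB08_dg G (Function.update f i z) i - 1)) := by
  classical
  unfold trv at hf
  rw [mem_filter, Fintype.mem_piFinset] at hf
  obtain ⟨hfP, hfa⟩ := hf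
  have hinj : Function.Injective f := by
    intro j l h
    by_contra hjl
    have := hfa j l hjl
    rw [h] at this
    exact G.loopless.irrefl _ this
  have hnb : (nb G (univ.image f) z).card = ((univ.erase i).filter (fun k => G.Adj z (f k))).card := by
    have h1 : nb G (univ.image f) z = ((univ.erase i).filter (fun k => G.Adj z (f k))).image f := by
      ext y
      rw [mem_nb]
      simp only [mem_image, mem_univ, true_and, mem_filter, mem_erase, ne_eq, and_true]
      constructor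
      · rintro ⟨⟨k, rfl⟩, h⟩
        refine ⟨k, ⟨?_, h⟩, rfl⟩
        rintro rfl
        exact hP.ind k z hz (f k) (hfP k) h
      · rintro ⟨k, ⟨_, h⟩, rfl⟩
        exact ⟨⟨k, rfl⟩, h⟩
    rw [h1, Finset.card_image_of_injective _ hinj]
  have hdg : MLB08_dg G (Function.update f i z) i =
      (((univ.erase i).filter (fun k => ¬ G.Adj z (f k))).card : ℝ) := by
    unfold MLB08_dg
    rw [Finset.card_filter]
    push_cast
    refine Finset.sum_congr rfl fun k hk => ?_
    unfold MLB08_bd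
    rw [Function.update_self, Function.update_of_ne (mem_erase.1 hk).1]
    by_cases h : G.Adj z (f k) <;> simp [h]
  have hsum := Finset.card_filter_add_card_filter_not (s := (univ : Finset (Fin (p + 3))).erase i)
    (fun k => G.Adj z (f k))
  rw [Finset.card_erase_of_mem (mem_univ i), Finset.card_univ, Fintype.card_fin] at hsum
  rw [hnb, hdg]
  generalize ((univ.erase i).filter (fun k => G.Adj z (f k))).card = n at hsum ⊢
  generalize ((univ.erase i).filter (fun k => ¬ G.Adj z (f k))).card = μ at hsum ⊢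
  have hn : n + 1 = p + 3 - μ := by omega
  have hμ : μ ≤ p + 2 := by omega
  rw [hn]
  obtain ⟨-, -, -, -, h6⟩ := hG p w r hprm
  have h7 := h6 μ hμ
  rw [Nat.cast_choose_two] at h7
  linarith

theorem MLB0_thm (h1 : TRVStmt) (h2 : GCO0Stmt) : MLB0Stmt := by
  classical
  intro V _ G p w r a e P hprm he0 hP hsz hmis
  obtain ⟨hk, hF⟩ := h1 G P hP
  rw [hF]
  have hp : (0 : ℝ) ≤ p := Nat.cast_nonneg _
  have ha : (0 : ℝ) ≤ a := Nat.cast_nonneg _
  have he1 : 0 ≤ e1 p := by unfold e1; positivity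
  have hr : (r : ℝ) ≤ p := by exact_mod_cast hprm.rp
  have hg1 : 0 ≤ (r : ℝ) / (((p : ℝ) + 3 - r) * ((p : ℝ) + 2)) := by
    apply div_nonneg (Nat.cast_nonneg _)
    apply mul_nonneg <;> linarith
  set g₁ := (r : ℝ) / (((p : ℝ) + 3 - r) * ((p : ℝ) + 2)) with hg₁
  set D : ℝ := (1 + e) * a with hD
  have hD0 : 0 ≤ D := mul_nonneg (by linarith) ha
  have haD : (a : ℝ) ≤ D := by rw [hD]; nlinarith
  have hdgn : ∀ f : Fin (p + 3) → V, ∀ i, 0 ≤ MLB08_dg G f i ∧
      0 ≤ MLB08_dg G f i * (MLB08_dg G f i - 1) := by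
    intro f i
    refine ⟨Finset.sum_nonneg fun k _ => MLB08_bd_nonneg G f i k, ?_⟩
    rw [MLB08_dg_sq]
    exact Finset.sum_nonneg fun k _ => Finset.sum_nonneg fun l _ =>
      mul_nonneg (MLB08_bd_nonneg G f i k) (MLB08_bd_nonneg G f i l)
  by_cases hne : ∀ l, 0 < ((P l).card : ℝ)
  swap
  · push Not at hne
    obtain ⟨l, hl⟩ := hne
    have hl0 : P l = ∅ := by
      rw [← Finset.card_eq_zero]
      have : ((P l).card : ℝ) = 0 := le_antisymm hl (Nat.cast_nonneg _)
      exact_mod_cast this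
    have ht : trv G P = ∅ := by
      unfold trv
      rw [Finset.filter_eq_empty_iff]
      intro f hf
      have := Fintype.mem_piFinset.1 hf l
      rw [hl0] at this
      simp at this
    rw [ht, Finset.sum_empty]
    exact mul_nonneg (mul_nonneg (Nat.cast_nonneg _) (pow_nonneg hD0 _))
      (add_nonneg hg1 (mul_nonneg (by linarith) he1))
  set Ω := Fintype.piFinset P with hΩ
  have hstep1 : ∀ f ∈ trv G P, mm G p r (un P) (univ.image f) ≤ ∑ i, ∑ z ∈ P i,
      (g₁ * MLB08_dg G (Function.update f i z) i +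
      1 / 2 * (MLB08_dg G (Function.update f i z) i *
        (MLB08_dg G (Function.update f i z) i - 1))) := by
    intro f hf
    unfold mm un
    rw [Finset.sum_biUnion]
    · exact Finset.sum_le_sum fun i _ => Finset.sum_le_sum fun z hz =>
        MLB08_gg_le h2 G hprm P hP hf i hz
    · intro i _ j _ hij
      exact hP.dis i j hij
  have hpos : ∀ f : Fin (p + 3) → V, ∀ i, 0 ≤ g₁ * MLB08_dg G f i +
      1 / 2 * (MLB08_dg G f i * (MLB08_dg G f i - 1)) := fun f i =>
    add_nonneg (mul_nonneg hg1 (hdgn f i).1) (mul_nonneg (by norm_num) (hdgn f i).2)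
  refine (Finset.sum_le_sum hstep1).trans ?_
  have hstep2 : ∑ f ∈ trv G P, ∑ i, ∑ z ∈ P i,
      (g₁ * MLB08_dg G (Function.update f i z) i +
      1 / 2 * (MLB08_dg G (Function.update f i z) i * (MLB08_dg G (Function.update f i z) i - 1))) ≤
      ∑ f ∈ Ω, ∑ i, ∑ z ∈ P i,
      (g₁ * MLB08_dg G (Function.update f i z) i +
      1 / 2 * (MLB08_dg G (Function.update f i z) i * (MLB08_dg G (Function.update f i z) i - 1))) := by
    refine Finset.sum_le_sum_of_subset_of_nonneg (Finset.filter_subset _ _) fun f _ _ => ?_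
    exact Finset.sum_nonneg fun i _ => Finset.sum_nonneg fun z _ => hpos _ _
  refine hstep2.trans ?_
  rw [Finset.sum_comm]
  have htot : (tot G P : ℝ) = ∑ i, ∑ k ∈ univ.erase i, ∑ u ∈ P i, ((non G (P k) u).card : ℝ) := by
    unfold tot
    push_cast
    rfl
  have hprod1 : ∀ k : Fin (p + 3), ∏ l ∈ univ.erase k, ((P l).card : ℝ) ≤ D ^ (p + 2) := by
    intro k
    refine (Finset.prod_le_prod (fun l _ => Nat.cast_nonneg _) (fun l _ => hsz l)).trans ?_
    rw [Finset.prod_const, Finset.card_erase_of_mem (mem_univ k), Finset.card_univ,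
      Fintype.card_fin]
    exact le_of_eq (by congr 1)
  have hprod2 : ∀ k l : Fin (p + 3), l ≠ k →
      ∏ m ∈ (univ.erase k).erase l, ((P m).card : ℝ) ≤ D ^ (p + 1) := by
    intro k l hlk
    refine (Finset.prod_le_prod (fun l _ => Nat.cast_nonneg _) (fun l _ => hsz l)).trans ?_
    rw [Finset.prod_const, Finset.card_erase_of_mem (mem_erase.2 ⟨hlk, mem_univ l⟩),
      Finset.card_erase_of_mem (mem_univ k), Finset.card_univ, Fintype.card_fin]
    exact le_of_eq (by congr 1)
  have hi : ∀ i ∈ (univ : Finset (Fin (p + 3))), ∑ f ∈ Ω, ∑ z ∈ P i,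
      (g₁ * MLB08_dg G (Function.update f i z) i +
      1 / 2 * (MLB08_dg G (Function.update f i z) i * (MLB08_dg G (Function.update f i z) i - 1))) ≤
      (D ^ (p + 2) * (g₁ + ((p : ℝ) + 3) / 2 * e1 p)) *
        ∑ k ∈ univ.erase i, ∑ u ∈ P i, ((non G (P k) u).card : ℝ) := by
    intro i _
    rw [MLB08_sum_update P i (fun f => g₁ * MLB08_dg G f i +
      1 / 2 * (MLB08_dg G f i * (MLB08_dg G f i - 1)))]
    have hA : ((P i).card : ℝ) * ∑ f ∈ Ω, (g₁ * MLB08_dg G f i +
        1 / 2 * (MLB08_dg G f i * (MLB08_dg G f i - 1))) =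
        ∑ k ∈ univ.erase i, (g₁ * (((P i).card : ℝ) * ∑ f ∈ Ω, MLB08_bd G f i k) +
          1 / 2 * ∑ l ∈ (univ.erase i).erase k,
            (((P i).card : ℝ) * ∑ f ∈ Ω, MLB08_bd G f i k * MLB08_bd G f i l)) := by
      rw [Finset.sum_add_distrib, ← Finset.mul_sum, ← Finset.mul_sum, mul_add,
        Finset.sum_add_distrib]
      congr 1
      · have hB : ∑ f ∈ Ω, MLB08_dg G f i = ∑ k ∈ univ.erase i, ∑ f ∈ Ω, MLB08_bd G f i k := by
          unfold MLB08_dg
          rw [Finset.sum_comm]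
        rw [hB, ← Finset.mul_sum, ← Finset.mul_sum]
        ring
      · have hB : ∑ f ∈ Ω, (MLB08_dg G f i * (MLB08_dg G f i - 1)) =
            ∑ k ∈ univ.erase i, ∑ l ∈ (univ.erase i).erase k,
              ∑ f ∈ Ω, MLB08_bd G f i k * MLB08_bd G f i l := by
          rw [Finset.sum_congr rfl fun f _ => MLB08_dg_sq G f i, Finset.sum_comm]
          refine Finset.sum_congr rfl fun k _ => ?_
          rw [Finset.sum_comm]
        rw [hB, ← Finset.mul_sum]
        have hC : ∀ k ∈ (univ : Finset (Fin (p + 3))).erase i,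
            ∑ l ∈ (univ.erase i).erase k,
              ((P i).card : ℝ) * ∑ f ∈ Ω, MLB08_bd G f i k * MLB08_bd G f i l =
            ((P i).card : ℝ) * ∑ l ∈ (univ.erase i).erase k,
              ∑ f ∈ Ω, MLB08_bd G f i k * MLB08_bd G f i l := fun k _ => by
          rw [Finset.mul_sum]
        rw [Finset.sum_congr rfl hC, ← Finset.mul_sum]
        ring
    rw [hA, Finset.mul_sum]
    refine Finset.sum_le_sum fun k hk' => ?_
    have hki : k ≠ i := (mem_erase.1 hk').1
    set M : ℝ := ∑ u ∈ P i, ((non G (P k) u).card : ℝ) with hM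
    have hM0 : 0 ≤ M := Finset.sum_nonneg fun u _ => Nat.cast_nonneg _
    have hfirst : ((P i).card : ℝ) * ∑ f ∈ Ω, MLB08_bd G f i k ≤ M * D ^ (p + 2) := by
      rw [MLB08_first G P hne i k hki]
      exact mul_le_mul_of_nonneg_left (hprod1 k) hM0
    have hsecond : ∀ l ∈ (univ.erase i).erase k,
        ((P i).card : ℝ) * ∑ f ∈ Ω, MLB08_bd G f i k * MLB08_bd G f i l ≤
          e1 p * (M * D ^ (p + 2)) := by
      intro l hl
      rw [mem_erase, mem_erase] at hl
      have h3 := MLB08_second G P hne hmis i k l hki hl.2.1 hl.1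
      refine h3.trans ?_
      have h4 : M * ∏ m ∈ (univ.erase k).erase l, ((P m).card : ℝ) ≤ M * D ^ (p + 1) :=
        mul_le_mul_of_nonneg_left (hprod2 k l hl.1) hM0
      have h5 : 0 ≤ M * D ^ (p + 1) := mul_nonneg hM0 (pow_nonneg hD0 _)
      calc e1 p * a * (M * ∏ m ∈ (univ.erase k).erase l, ((P m).card : ℝ))
          ≤ e1 p * a * (M * D ^ (p + 1)) := mul_le_mul_of_nonneg_left h4 (mul_nonneg he1 ha)
        _ ≤ e1 p * D * (M * D ^ (p + 1)) :=
            mul_le_mul_of_nonneg_right (mul_le_mul_of_nonneg_left haD he1) h5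
        _ = e1 p * (M * D ^ (p + 2)) := by ring
    have hsum : ∑ l ∈ (univ.erase i).erase k,
        ((P i).card : ℝ) * ∑ f ∈ Ω, MLB08_bd G f i k * MLB08_bd G f i l ≤
          ((p : ℝ) + 3) * (e1 p * (M * D ^ (p + 2))) := by
      refine (Finset.sum_le_sum hsecond).trans ?_
      rw [Finset.sum_const, nsmul_eq_mul]
      have h3 : (((univ.erase i).erase k).card : ℝ) ≤ (p : ℝ) + 3 := by
        have : ((univ.erase i).erase k).card ≤ p + 3 := by
          refine (Finset.card_le_univ _).trans ?_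
          simp
        exact_mod_cast this
      exact mul_le_mul_of_nonneg_right h3 (mul_nonneg he1 (mul_nonneg hM0 (pow_nonneg hD0 _)))
    have h4 : g₁ * (((P i).card : ℝ) * ∑ f ∈ Ω, MLB08_bd G f i k) ≤ g₁ * (M * D ^ (p + 2)) :=
      mul_le_mul_of_nonneg_left hfirst hg1
    calc g₁ * (((P i).card : ℝ) * ∑ f ∈ Ω, MLB08_bd G f i k) +
          1 / 2 * ∑ l ∈ (univ.erase i).erase k,
            ((P i).card : ℝ) * ∑ f ∈ Ω, MLB08_bd G f i k * MLB08_bd G f i l
        ≤ g₁ * (M * D ^ (p + 2)) + 1 / 2 * (((p : ℝ) + 3) * (e1 p * (M * D ^ (p + 2)))) := by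
          linarith
      _ = D ^ (p + 2) * (g₁ + ((p : ℝ) + 3) / 2 * e1 p) * M := by ring
  refine (Finset.sum_le_sum hi).trans ?_
  rw [← Finset.mul_sum, ← htot]
  exact le_of_eq (by ring)

end Pool.GU7
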